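import Pool.Agent.V69.SS.Lin
import Pool.Agent.W534.PoleB

set_option autoImplicit false

/-!
# Jordan blocks of the Frobenius endomorphism on the middle cohomology
-/

open CategoryTheory AlgebraicGeometry

universe u v

namespace Pool.Agent.V69.SS

open Pool.Agent.H914 Pool.Agent.H447 VarClass Obj WeilCohomology Module
open Pool.Agent.W534

/-- The dimension of a subspace. -/
noncomputable def dimOf {K V : Type*} [Field K] [AddCommGroup V] [Module K V] (U : Submodule K V) : ℕ :=
  finrank K U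

/-- `(f - a) ^ m` vanishes on the subspace `U`. -/
def KillsOn {K V : Type*} [Field K] [AddCommGroup V] [Module K V] (U : Submodule K V)
    (f : V →ₗ[K] V) (a : K) (m : ℕ) : Prop :=
  ∀ x ∈ U, ((f - a • (1 : V →ₗ[K] V)) ^ m) x = 0

variable {k : Type u} [Field k] {𝒱 : VarClass k} {ops : CycleOps 𝒱}
  {W : WeilCohomology.{u, v} ops} {Z : 𝒱.Obj} {p : ℕ} (Φ : FrobSystem W p)

/-- `F - q ^ j`, for the Frobenius endomorphism `F` over the field with `q = card Φ Z s` elements. -/
noncomputable def AA (Z : 𝒱.Obj) (s j : ℕ) : End W.K (W.H Z) :=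
  frob Φ Z s - ((card Φ Z s : W.K) ^ j) • (1 : End W.K (W.H Z))

/-- Over all finite fields the generalised eigenspace of Frobenius in `H^{2j}(Z)` for the eigenvalue `q ^ j` has
dimension at most `r + n`, where `r` is the rank of the group of the cycles of codimension `j` modulo numerical
equivalence. -/
def DefectLE (Z : 𝒱.Obj) (j n : ℕ) : Prop :=
  ∀ s, 0 < s → dimOf (genTate Φ Z s j) ≤ numRank ops Z j + n

/-- Over all finite fields `(F - q ^ j) ^ m` vanishes on the generalised eigenspace of Frobenius in `H^{2j}(Z)`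
for the eigenvalue `q ^ j`, `q = card Φ Z s`. -/
def JordanLE (Z : 𝒱.Obj) (j m : ℕ) : Prop :=
  ∀ s, 0 < s → KillsOn (genTate Φ Z s j) (frob Φ Z s) ((card Φ Z s : W.K) ^ j) m

theorem AA_gr {s j i : ℕ} {x : W.H Z} (hx : x ∈ W.gr Z i) : AA Φ Z s j x ∈ W.gr Z i := by
  unfold AA
  rw [LinearMap.sub_apply, LinearMap.smul_apply, Module.End.one_apply]
  exact Submodule.sub_mem _ (W.map_mem _ hx) (Submodule.smul_mem _ _ hx)

theorem AA_mem {s j : ℕ} {x : W.H Z} (hx : x ∈ genTate Φ Z s j) : AA Φ Z s j x ∈ genTate Φ Z s j := by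
  obtain ⟨⟨n, hn⟩, hg⟩ := (mem_genTate Φ).1 hx
  refine (mem_genTate Φ).2 ⟨⟨n, ?_⟩, AA_gr Φ hg⟩
  change (AA Φ Z s j ^ n) (AA Φ Z s j x) = 0
  rw [← Module.End.mul_apply, ← pow_succ, pow_succ', Module.End.mul_apply]
  have hn' : (AA Φ Z s j ^ n) x = 0 := hn
  rw [hn', map_zero]

/-- **The case of a large finite field.** -/
theorem nil_of_eig {j m s : ℕ} (hdim : Z.dim = 2 * j) (hm : Odd m)
    (heig : ∀ c ∈ spanCycles W Z j, frob Φ Z s c = ((card Φ Z s : W.K) ^ j) • c)
    (h : finrank W.K (genTate Φ Z s j) ≤ numRank ops Z j + (m + 1)) {x : W.H Z}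
    (hx : x ∈ genTate Φ Z s j) : (AA Φ Z s j ^ m) x = 0 := by
  set μ : W.K := (card Φ Z s : W.K) ^ j with hμ
  have hμ0 : μ ≠ 0 := pow_ne_zero _ (card_ne Φ s)
  set V := genTate Φ Z s j with hV
  have hsp : ∀ c ∈ spanCycles W Z j, c ∈ V := fun c hc =>
    mem_genTate_of_eig Φ (span_gr hc) (heig c hc)
  let B0 : W.H Z →ₗ[W.K] W.H Z →ₗ[W.K] W.K := (LinearMap.mul W.K (W.H Z)).compr₂ (W.tr Z)
  have hB0 : ∀ x y, B0 x y = W.tr Z (x * y) := fun x y => rfl
  let B : V →ₗ[W.K] V →ₗ[W.K] W.K := B0.domRestrict₁₂ V V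
  have hB : ∀ x y : V, B x y = W.tr Z ((x : W.H Z) * y) := fun x y => rfl
  let f : End W.K V := (AA Φ Z s j).restrict fun x hx => AA_mem Φ hx
  have hf : ∀ x : V, ((f x : V) : W.H Z) = AA Φ Z s j x := fun x => rfl
  have hfn : ∀ (n : ℕ) (x : V), (((f ^ n) x : V) : W.H Z) = (AA Φ Z s j ^ n) x := by
    intro n
    induction n with
    | zero => intro x; rfl
    | succ n ih =>
      intro x
      rw [pow_succ, Module.End.mul_apply, ih, hf, pow_succ, Module.End.mul_apply]
  have hnil : IsNilpotent f := by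
    rw [Module.End.isNilpotent_iff_of_finite]
    intro x
    obtain ⟨⟨n, hn⟩, -⟩ := (mem_genTate Φ).1 x.2
    exact ⟨n, Subtype.ext ((hfn n x).trans hn)⟩
  have hgr : ∀ x : V, (x : W.H Z) ∈ W.gr Z (2 * j) := fun x => ((mem_genTate Φ).1 x.2).2
  let N : Submodule W.K V := (spanCycles W Z j).comap V.subtype
  have hmm : μ * μ = (card Φ Z s : W.K) ^ Z.dim := by
    rw [hdim, two_mul, pow_add]
  have hmain := orth_main B (fun x y => by rw [hB, hB, W.even_comm (hgr x)]) (fun x hx => by
      apply Subtype.ext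
      exact genTate_nondeg Φ (by omega) x.2 fun y hy => hx ⟨y, hy⟩) f hnil μ hμ0 (fun x y => by
      rw [hB, hB, hB, hf, hf]
      have h1 := tr_adj Φ hmm (x : W.H Z) (y : W.H Z)
      have h2 : frob Φ Z s (x : W.H Z) = μ • (x : W.H Z) + AA Φ Z s j x := by
        unfold AA
        rw [LinearMap.sub_apply, LinearMap.smul_apply, Module.End.one_apply]
        abel
      rw [h2, add_mul, map_add, smul_mul_assoc, map_smul, smul_eq_mul] at h1
      change μ * W.tr Z ((x : W.H Z) * AA Φ Z s j y) + W.tr Z (AA Φ Z s j x * AA Φ Z s j y) =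
        -μ * W.tr Z (AA Φ Z s j x * y) at h1
      linear_combination h1) N (fun c hc => by
      apply Subtype.ext
      rw [hf]
      change AA Φ Z s j c = 0
      unfold AA
      rw [LinearMap.sub_apply, LinearMap.smul_apply, Module.End.one_apply, heig (c : W.H Z) hc,
        sub_self])
    m hm (h.trans (Nat.add_le_add_right ?_ _))
  · have h3 := hfn m ⟨x, hx⟩
    rw [hmain] at h3
    exact h3.symm
  · rw [numRank_eq (W := W) (by omega : j ≤ Z.dim), show Z.dim - j = j by omega]
    let e : N ≃ₗ[W.K] spanCycles W Z j := Submodule.comapSubtypeEquivOfLe hsp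
    have he : ∀ n : N, ((e n : spanCycles W Z j) : W.H Z) = ((n : V) : W.H Z) := fun n => rfl
    let T : Dual W.K N →ₗ[W.K] Dual W.K (spanCycles W Z j) := e.symm.toLinearMap.dualMap
    have hle : LinearMap.range (pair W Z j j) ≤
        (LinearMap.range (B.domRestrict₁₂ N N)).map T := by
      rintro _ ⟨a, rfl⟩
      refine ⟨B.domRestrict₁₂ N N (e.symm a), ⟨_, rfl⟩, ?_⟩
      ext c
      have h4 : T (B.domRestrict₁₂ N N (e.symm a)) c =
          W.tr Z ((((e.symm a : N) : V) : W.H Z) * (((e.symm c : N) : V) : W.H Z)) := rfl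
      rw [h4, pair_apply, ← he, ← he, LinearEquiv.apply_symm_apply, LinearEquiv.apply_symm_apply]
    exact (Submodule.finrank_mono hle).trans (Submodule.finrank_map_le _ _)

/-- a generalised eigenvector of `F` which is an eigenvector of a power -/
theorem descend {K U : Type*} [Field K] [CharZero K] [AddCommGroup U] [Module K U] (F : End K U)
    (μ : K) (hμ : μ ≠ 0) (t m : ℕ) (ht : 0 < t) (x : U) (n : ℕ) (hn : ((F - μ • 1) ^ n) x = 0)
    (hx : ((F ^ t - (μ ^ t) • 1) ^ m) x = 0) : ((F - μ • 1) ^ m) x = 0 := by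
  classical
  set g : Polynomial K := ∑ i ∈ Finset.range t, Polynomial.X ^ i * Polynomial.C μ ^ (t - 1 - i)
    with hg
  have hfac : (Polynomial.X - Polynomial.C μ) * g = Polynomial.X ^ t - Polynomial.C μ ^ t := by
    rw [hg, mul_comm]
    exact (Commute.all _ _).geom_sum₂_mul t
  have hgμ : g.eval μ ≠ 0 := by
    have h1 : g.eval μ = t * μ ^ (t - 1) := by
      rw [hg, Polynomial.eval_finsetSum]
      have h2 : ∀ i ∈ Finset.range t, (Polynomial.X ^ i * Polynomial.C μ ^ (t - 1 - i)).eval μ =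
          μ ^ (t - 1) := by
        intro i hi
        rw [Finset.mem_range] at hi
        rw [Polynomial.eval_mul, Polynomial.eval_pow, Polynomial.eval_X, Polynomial.eval_pow,
          Polynomial.eval_C, ← pow_add]
        congr 1
        omega
      rw [Finset.sum_congr rfl h2, Finset.sum_const, Finset.card_range, nsmul_eq_mul]
    rw [h1]
    exact mul_ne_zero (by exact_mod_cast ht.ne') (pow_ne_zero _ hμ)
  have hcop : IsCoprime (Polynomial.X - Polynomial.C μ) g := by
    rw [(Polynomial.irreducible_X_sub_C μ).coprime_iff_not_dvd, Polynomial.dvd_iff_isRoot]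
    exact hgμ
  obtain ⟨u, w, huw⟩ := (hcop.pow (m := n) (n := m))
  have hA : Polynomial.aeval F (Polynomial.X - Polynomial.C μ) = F - μ • 1 := by
    rw [map_sub, Polynomial.aeval_X, Polynomial.aeval_C, Algebra.algebraMap_eq_smul_one]
  have hG : Polynomial.aeval F ((Polynomial.X - Polynomial.C μ) * g) = F ^ t - (μ ^ t) • 1 := by
    rw [hfac, map_sub, map_pow, Polynomial.aeval_X, map_pow, Polynomial.aeval_C,
      Algebra.algebraMap_eq_smul_one, smul_pow, one_pow]
  -- `y = (F - μ)^m x` is killed by `(F - μ)^n` and by `g(F)^m`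
  have h1 : Polynomial.aeval F (((Polynomial.X - Polynomial.C μ) ^ m)) x = ((F - μ • 1) ^ m) x := by
    rw [map_pow, hA]
  rw [← h1]
  have h2 : (Polynomial.X - Polynomial.C μ) ^ m =
      (u * (Polynomial.X - Polynomial.C μ) ^ m) * (Polynomial.X - Polynomial.C μ) ^ n +
        w * ((Polynomial.X - Polynomial.C μ) * g) ^ m := by
    calc (Polynomial.X - Polynomial.C μ) ^ m
        = (u * (Polynomial.X - Polynomial.C μ) ^ n + w * g ^ m) *
          (Polynomial.X - Polynomial.C μ) ^ m := by rw [huw, one_mul]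
      _ = _ := by rw [mul_pow]; ring
  rw [h2, map_add, map_mul, map_mul, LinearMap.add_apply, Module.End.mul_apply,
    Module.End.mul_apply, map_pow, map_pow, hA, hn, map_zero, map_zero, map_mul,
    Module.End.mul_apply, map_pow, hG, hx, map_zero, add_zero]

/-- **The Jordan blocks for the eigenvalue `q ^ j`.** If the number of the eigenvalues `q ^ j ζ`, `ζ` a root of
unity, exceeds the rank of the group of the cycles by at most `m + 1`, `m` odd, then the Jordan blocks
for the eigenvalue `q ^ j` have size at most `m`, over all finite fields. -/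
theorem jordan {j m : ℕ} (hdim : Z.dim = 2 * j) (hm : Odd m)
    (h : DefectLE Φ Z j (m + 1)) : JordanLE Φ Z j m := by
  intro s hs x hx
  change (AA Φ Z s j ^ m) x = 0
  obtain ⟨t, ht, heig⟩ := exists_span_eig Φ Z j
  have h1 : (AA Φ Z (s * t) j ^ m) x = 0 :=
    nil_of_eig Φ hdim hm (fun c hc => span_eig_mul' Φ (heig c hc) s) (h _ (Nat.mul_pos hs ht))
      (genTate_mono Φ s t j hx)
  obtain ⟨⟨n, hn⟩, -⟩ := (mem_genTate Φ).1 hx
  refine descend (frob Φ Z s) _ (pow_ne_zero _ (card_ne Φ s)) t m ht x n hn ?_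
  unfold AA at h1
  rw [frob_mul_eq, card_mul_eq, Nat.cast_pow, ← pow_mul, mul_comm t j, pow_mul] at h1
  exact h1

end Pool.Agent.V69.SS
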