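import Mathlib

set_option autoImplicit false

/-!
# Unipotent isometries of quadratic spaces with a large space of fixed vectors

`f` is the nilpotent part `F - μ` of a similitude `F` with `F x · F y = μ ^ 2 (x · y)` of a quadratic space.
-/

namespace Pool.Agent.V69.SS

open Module

variable {K : Type*} [Field K]

/-- the ranges of the powers of a nilpotent endomorphism -/
theorem range_pow_le {U : Type*} [AddCommGroup U] [Module K U] [FiniteDimensional K U]
    (f : End K U) (hf : IsNilpotent f) (i : ℕ) :
    finrank K (LinearMap.range (f ^ i)) ≤ finrank K U - i := by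
  induction i with
  | zero => rw [Nat.sub_zero]; exact Submodule.finrank_le _
  | succ i ih =>
    have hle : LinearMap.range (f ^ (i + 1)) ≤ LinearMap.range (f ^ i) := by
      rintro _ ⟨x, rfl⟩
      exact ⟨f x, by rw [pow_succ, Module.End.mul_apply]⟩
    rcases lt_or_eq_of_le (Submodule.finrank_mono hle) with h | h
    · omega
    · have heq := Submodule.eq_of_le_of_finrank_eq hle h
      have hall : ∀ n, LinearMap.range (f ^ (i + n)) = LinearMap.range (f ^ i) := by
        intro n
        induction n with
        | zero => rfl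
        | succ n ihn =>
          have h1 : LinearMap.range (f ^ (i + (n + 1))) =
              (LinearMap.range (f ^ (i + n))).map f := by
            rw [← LinearMap.range_comp]
            congr 1
            rw [← Module.End.mul_eq_comp, ← pow_succ']
            congr 1
          have h2 : LinearMap.range (f ^ (i + 1)) = (LinearMap.range (f ^ i)).map f := by
            rw [← LinearMap.range_comp]
            congr 1
            rw [← Module.End.mul_eq_comp, ← pow_succ']
          rw [h1, ihn, ← h2, heq]
      obtain ⟨k, hk⟩ := hf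
      have h3 := hall k
      rw [pow_add, hk, mul_zero] at h3
      have h4 : finrank K (LinearMap.range (f ^ i)) = 0 := by
        rw [← h3]
        simp
      omega

/-- **A nilpotent `f` such that `1 + f / μ` is an isometry of a quadratic space of dimension at most `m + 1`,
`m` odd, satisfies `f ^ m = 0`.** -/
theorem orth_nil [CharZero K] {U : Type*} [AddCommGroup U] [Module K U] [FiniteDimensional K U]
    (B : U →ₗ[K] U →ₗ[K] K) (hsymm : ∀ x y, B x y = B y x)
    (hnd : ∀ x, (∀ y, B x y = 0) → x = 0) (f : End K U) (hf : IsNilpotent f) (μ : K) (hμ : μ ≠ 0)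
    (hrel : ∀ x y, μ * B (f x) y + μ * B x (f y) + B (f x) (f y) = 0) (m : ℕ) (hm : Odd m)
    (hdim : finrank K U ≤ m + 1) : f ^ m = 0 := by
  have hr := range_pow_le f hf
  -- `f ^ (m + 1) = 0`
  have htop : ∀ n, m + 1 ≤ n → ∀ x, (f ^ n) x = 0 := by
    intro n hn x
    have h1 := hr n
    have h2 : finrank K (LinearMap.range (f ^ n)) = 0 := by omega
    have h3 := Submodule.finrank_eq_zero.1 h2
    have h4 : (f ^ n) x ∈ LinearMap.range (f ^ n) := ⟨x, rfl⟩
    rw [h3] at h4
    exact h4
  -- the products of large total degree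
  have hb : ∀ d p q, p + q + d = 2 * (m + 1) → m + 1 ≤ p + q → ∀ x y,
      B ((f ^ p) x) ((f ^ q) y) = 0 := by
    intro d
    induction d with
    | zero =>
      intro p q h _ x y
      rcases Nat.lt_or_ge p (m + 1) with hp | hp
      · rw [htop q (by omega) y, map_zero]
      · rw [htop p hp x, map_zero, LinearMap.zero_apply]
    | succ d ih =>
      intro p
      induction p with
      | zero =>
        intro q _ hq x y
        rw [htop q (by omega) y, map_zero]
      | succ p ihp =>
        intro q h hpq x y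
        have h1 := hrel ((f ^ p) x) ((f ^ q) y)
        rw [← Module.End.mul_apply f (f ^ p), ← pow_succ', ← Module.End.mul_apply f (f ^ q),
          ← pow_succ'] at h1
        rw [ih (p + 1) (q + 1) (by omega) (by omega), add_zero,
          ihp (q + 1) (by omega) (by omega) x y, mul_zero, add_zero] at h1
        exact (mul_eq_zero.1 h1).resolve_left hμ
  have hb' : ∀ p q, m + 1 ≤ p + q → ∀ x y, B ((f ^ p) x) ((f ^ q) y) = 0 := by
    intro p q hpq x y
    rcases Nat.lt_or_ge (2 * (m + 1)) (p + q) with h | h
    · rcases Nat.lt_or_ge p (m + 1) with hp | hp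
      · rw [htop q (by omega) y, map_zero]
      · rw [htop p hp x, map_zero, LinearMap.zero_apply]
    · exact hb (2 * (m + 1) - (p + q)) p q (by omega) hpq x y
  -- moving `f`
  have hmove : ∀ p q, p + q = m → ∀ x y,
      B ((f ^ p) x) ((f ^ q) y) = (-1) ^ p * B x ((f ^ m) y) := by
    intro p
    induction p with
    | zero =>
      intro q hq x y
      rw [pow_zero, Module.End.one_apply, pow_zero, one_mul, ← hq, zero_add]
    | succ p ih =>
      intro q hq x y
      have h1 := hrel ((f ^ p) x) ((f ^ q) y)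
      rw [← Module.End.mul_apply f (f ^ p), ← pow_succ', ← Module.End.mul_apply f (f ^ q),
        ← pow_succ', hb' (p + 1) (q + 1) (by omega), add_zero, ih (q + 1) (by omega), ← mul_add]
        at h1
      have h2 := (mul_eq_zero.1 h1).resolve_left hμ
      have h3 : ((-1 : K)) ^ (p + 1) = -(-1) ^ p := by rw [pow_succ]; ring
      rw [h3]
      linear_combination h2
  have halt : ∀ x y, B ((f ^ m) x) y = - B x ((f ^ m) y) := by
    intro x y
    have h1 := hmove m 0 (by omega) x y
    rw [pow_zero, Module.End.one_apply, hm.neg_one_pow] at h1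
    rw [h1]
    ring
  have halt0 : ∀ x, B ((f ^ m) x) x = 0 := by
    intro x
    have h1 := halt x x
    rw [hsymm x ((f ^ m) x)] at h1
    have h2 : (2 : K) * B ((f ^ m) x) x = 0 := by linear_combination h1
    exact (mul_eq_zero.1 h2).resolve_left two_ne_zero
  by_contra hne
  obtain ⟨x, hx⟩ : ∃ x, (f ^ m) x ≠ 0 := by
    by_contra hcon
    push Not at hcon
    exact hne (LinearMap.ext hcon)
  obtain ⟨y, hy⟩ : ∃ y, B ((f ^ m) x) y ≠ 0 := by
    by_contra hcon
    push Not at hcon
    exact hx (hnd _ hcon)
  have h1 : finrank K (LinearMap.range (f ^ m)) ≤ 1 := (hr m).trans (by omega)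
  rw [finrank_le_one_iff] at h1
  obtain ⟨v, hv⟩ := h1
  obtain ⟨a, ha⟩ := hv ⟨(f ^ m) x, x, rfl⟩
  obtain ⟨b, hb1⟩ := hv ⟨(f ^ m) y, y, rfl⟩
  have ha' : a • (v : U) = (f ^ m) x := congrArg Subtype.val ha
  have hb1' : b • (v : U) = (f ^ m) y := congrArg Subtype.val hb1
  have ha0 : a ≠ 0 := by
    rintro rfl
    rw [zero_smul] at ha'
    exact hx ha'.symm
  have h2 : (f ^ m) y = (b / a) • (f ^ m) x := by
    rw [← ha', ← hb1', smul_smul, div_mul_cancel₀ _ ha0]
  have h3 := halt x y
  rw [h2, map_smul, hsymm x, halt0, smul_zero, neg_zero] at h3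
  exact hy h3

/-- **The nilpotent part vanishes in degree `m` if the space of the fixed vectors contains a part of rank at
least `dim V - m - 1`, `m` odd.** -/
theorem orth_main [CharZero K] {V : Type*} [AddCommGroup V] [Module K V] [FiniteDimensional K V]
    (B : V →ₗ[K] V →ₗ[K] K) (hsymm : ∀ x y, B x y = B y x)
    (hnd : ∀ x, (∀ y, B x y = 0) → x = 0) (f : End K V) (hf : IsNilpotent f) (μ : K) (hμ : μ ≠ 0)
    (hrel : ∀ x y, μ * B (f x) y + μ * B x (f y) + B (f x) (f y) = 0) (N : Submodule K V)
    (hN : ∀ c ∈ N, f c = 0) (m : ℕ) (hm : Odd m)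
    (hdim : finrank K V ≤ finrank K (LinearMap.range ((B.domRestrict₁₂ N N))) + (m + 1)) :
    f ^ m = 0 := by
  classical
  have hm1 : 1 ≤ m := hm.pos
  set BN : N →ₗ[K] N →ₗ[K] K := B.domRestrict₁₂ N N with hBN
  have hBNa : ∀ c d : N, BN c d = B c d := fun c d => rfl
  obtain ⟨C, hC⟩ := Submodule.exists_isCompl (LinearMap.ker BN)
  have hCnd : ∀ c ∈ C, (∀ d ∈ C, BN c d = 0) → c = 0 := by
    intro c hc h
    have h1 : c ∈ LinearMap.ker BN := by
      rw [LinearMap.mem_ker]
      ext n
      have hn : n ∈ LinearMap.ker BN ⊔ C := by rw [hC.sup_eq_top]; trivial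
      obtain ⟨r, hr, d, hd, rfl⟩ := Submodule.mem_sup.1 hn
      rw [map_add, h d hd, add_zero, hBNa, hsymm, ← hBNa, LinearMap.mem_ker.1 hr]
      rfl
    have h2 : c ∈ LinearMap.ker BN ⊓ C := ⟨h1, hc⟩
    rw [hC.inf_eq_bot] at h2
    exact h2
  have hCdim : finrank K C = finrank K (LinearMap.range BN) := by
    have h1 := Submodule.finrank_add_eq_of_isCompl hC
    have h2 := LinearMap.finrank_range_add_finrank_ker BN
    omega
  set C' : Submodule K V := C.map N.subtype with hC'
  have hC'N : C' ≤ N := by
    rintro _ ⟨c, -, rfl⟩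
    exact c.2
  have hC'dim : finrank K C' = finrank K C :=
    (Submodule.equivMapOfInjective N.subtype N.injective_subtype C).finrank_eq.symm
  let L : V →ₗ[K] Dual K C' := (LinearMap.lcomp K K C'.subtype) ∘ₗ B
  have hL : ∀ x (c : C'), L x c = B x c := fun x c => rfl
  have hLinj : ∀ c : C', L c = 0 → c = 0 := by
    rintro ⟨c, c', hc', rfl⟩ h
    have h1 : c' = 0 := by
      apply hCnd c' hc'
      intro d hd
      have h2 := congrArg (fun φ : Dual K C' => φ ⟨_, d, hd, rfl⟩) h
      exact h2
    subst h1
    rfl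
  -- `V = C' + U`
  have hsurj : ∀ φ : Dual K C', ∃ c : C', L c = φ := by
    have h1 : Function.Injective (L ∘ₗ C'.subtype) := by
      rw [injective_iff_map_eq_zero]
      intro c hc
      exact hLinj c hc
    have h2 : finrank K C' = finrank K (Dual K C') := (Subspace.dual_finrank_eq).symm
    have h3 := (LinearMap.injective_iff_surjective_of_finrank_eq_finrank h2).1 h1
    intro φ
    obtain ⟨c, hc⟩ := h3 φ
    exact ⟨c, hc⟩
  set U := LinearMap.ker L with hU
  have hUmem : ∀ x, x ∈ U ↔ ∀ c ∈ C', B x c = 0 := by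
    intro x
    rw [hU, LinearMap.mem_ker]
    constructor
    · intro h c hc
      exact congrArg (fun φ : Dual K C' => φ ⟨c, hc⟩) h
    · intro h
      ext c
      exact h c c.2
  have hdec : ∀ v : V, ∃ c ∈ C', ∃ u ∈ U, v = c + u := by
    intro v
    obtain ⟨c, hc⟩ := hsurj (L v)
    refine ⟨c, c.2, v - c, ?_, by abel⟩
    rw [hU, LinearMap.mem_ker, map_sub, hc, sub_self]
  have hUdim : finrank K U ≤ m + 1 := by
    have h1 := LinearMap.finrank_range_add_finrank_ker L
    have h2 : LinearMap.range L = ⊤ := by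
      rw [LinearMap.range_eq_top]
      intro φ
      obtain ⟨c, hc⟩ := hsurj φ
      exact ⟨c, hc⟩
    rw [h2, finrank_top, Subspace.dual_finrank_eq, hC'dim, hCdim] at h1
    change finrank K (LinearMap.range BN) + finrank K U = finrank K V at h1
    omega
  have hstab : ∀ x ∈ U, f x ∈ U := by
    intro x hx
    rw [hUmem] at hx ⊢
    intro c hc
    have h1 := hrel x c
    rw [hN c (hC'N hc), map_zero, map_zero, mul_zero, add_zero, add_zero] at h1
    exact (mul_eq_zero.1 h1).resolve_left hμ
  let g : End K U := f.restrict hstab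
  have hg : ∀ x : U, ((g x : U) : V) = f x := fun x => rfl
  have hgn : ∀ (n : ℕ) (x : U), (((g ^ n) x : U) : V) = (f ^ n) x := by
    intro n
    induction n with
    | zero => intro x; rfl
    | succ n ih =>
      intro x
      rw [pow_succ, Module.End.mul_apply, ih, hg, pow_succ, Module.End.mul_apply]
  have hgnil : IsNilpotent g := by
    obtain ⟨k, hk⟩ := hf
    refine ⟨k, LinearMap.ext fun x => Subtype.ext ?_⟩
    rw [hgn, hk]
    rfl
  have hres := orth_nil (B.domRestrict₁₂ U U) (fun x y => hsymm _ _) (fun x hx => by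
    apply Subtype.ext
    apply hnd
    intro y
    obtain ⟨c, hc, u, hu, rfl⟩ := hdec y
    rw [map_add, (hUmem _).1 x.2 c hc, zero_add]
    exact hx ⟨u, hu⟩) g hgnil μ hμ (fun x y => hrel x y) m hm hUdim
  refine LinearMap.ext fun v => ?_
  obtain ⟨c, hc, u, hu, rfl⟩ := hdec v
  have h1 : (f ^ m) c = 0 := by
    obtain ⟨k, rfl⟩ : ∃ k, m = k + 1 := ⟨m - 1, by omega⟩
    rw [pow_succ, Module.End.mul_apply, hN c (hC'N hc), map_zero]
  have h2 : (f ^ m) u = 0 := by
    have h3 := hgn m ⟨u, hu⟩
    rw [hres] at h3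
    exact h3.symm
  rw [map_add, h1, h2, add_zero, LinearMap.zero_apply]

end Pool.Agent.V69.SS
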