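import Pool.Agent.V69.SS.Geo

set_option autoImplicit false

/-!
# The parity of the number of the Tate classes in the middle codimension
-/

open CategoryTheory AlgebraicGeometry

universe u v

namespace Pool.Agent.V69.SS

open Pool.Agent.H914 Pool.Agent.H447 VarClass Obj WeilCohomology Module
open Pool.Agent.W534

/-- The rank of an alternating form is even. -/
theorem alt_even {K U : Type*} [Field K] [CharZero K] [AddCommGroup U] [Module K U]
    [FiniteDimensional K U] (β : U →ₗ[K] U →ₗ[K] K) (halt : ∀ x, β x x = 0) :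
    Even (finrank K U - finrank K (LinearMap.ker β)) := by
  classical
  have hsk : ∀ x y, β x y = -β y x := by
    intro x y
    have h := halt (x + y)
    simp only [map_add, LinearMap.add_apply, halt, zero_add, add_zero] at h
    linear_combination h
  obtain ⟨C, hC⟩ := Submodule.exists_isCompl (LinearMap.ker β)
  have hdim := Submodule.finrank_add_eq_of_isCompl hC
  have hn : finrank K U - finrank K (LinearMap.ker β) = finrank K C := by omega
  rw [hn]
  by_contra hodd
  rw [Nat.not_even_iff_odd] at hodd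
  set b := Module.finBasis K C with hb
  set M : Matrix (Fin (finrank K C)) (Fin (finrank K C)) K := fun i j => β (b i) (b j) with hM
  have hMT : M.transpose = -M := by
    ext i j
    exact hsk _ _
  have hdet : M.det = 0 := by
    have h1 : M.det = -M.det := by
      have h2 := Matrix.det_transpose M
      rw [hMT, Matrix.det_neg, Fintype.card_fin, hodd.neg_one_pow] at h2
      linear_combination -h2
    have h2 : (2 : K) * M.det = 0 := by linear_combination h1
    exact (mul_eq_zero.1 h2).resolve_left two_ne_zero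
  obtain ⟨v, hv, hvM⟩ := Matrix.exists_vecMul_eq_zero_iff.2 hdet
  have hC0 : ∀ y : C, β ((∑ i, v i • b i : C) : U) (y : U) = 0 := by
    have h1 : (β ((∑ i, v i • b i : C) : U)) ∘ₗ C.subtype = 0 := by
      apply b.ext
      intro j
      have h3 := congrFun hvM j
      rw [LinearMap.comp_apply, LinearMap.zero_apply, Submodule.subtype_apply,
        Submodule.coe_sum, map_sum, LinearMap.sum_apply]
      rw [Matrix.vecMul, dotProduct, Pi.zero_apply] at h3
      rw [← h3]
      refine Finset.sum_congr rfl fun i _ => ?_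
      rw [Submodule.coe_smul, map_smul, LinearMap.smul_apply, smul_eq_mul]
    intro y
    exact congrArg (fun F => F y) h1
  have hx : (∑ i, v i • b i : C) = 0 := by
    apply Subtype.ext
    have h1 : ((∑ i, v i • b i : C) : U) ∈ LinearMap.ker β := by
      rw [LinearMap.mem_ker]
      apply LinearMap.ext
      intro u
      obtain ⟨r, hr, c, hc, rfl⟩ := Submodule.mem_sup.1
        (show u ∈ LinearMap.ker β ⊔ C by rw [hC.sup_eq_top]; trivial)
      rw [LinearMap.mem_ker] at hr
      rw [map_add, hsk _ r, hr, LinearMap.zero_apply, neg_zero, zero_add, LinearMap.zero_apply]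
      exact hC0 ⟨c, hc⟩
    have h2 := hC.disjoint.le_bot (show ((∑ i, v i • b i : C) : U) ∈ LinearMap.ker β ⊓ C from
      ⟨h1, (∑ i, v i • b i : C).2⟩)
    exact (Submodule.mem_bot K).1 h2
  exact hv (funext fun i => Fintype.linearIndependent_iff.1 b.linearIndependent v hx i)

variable {k : Type u} [Field k] {𝒱 : VarClass k} {ops : CycleOps 𝒱}
  {W : WeilCohomology.{u, v} ops} {Z : 𝒱.Obj} {p : ℕ} (Φ : FrobSystem W p)

/-- The Tate classes of degree `2 j` over the finite field with `q = card Φ Z s` elements: the classes in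
`H^{2j}(Z)` on which Frobenius acts as multiplication by `q ^ j`. -/
noncomputable def tateSub (Z : 𝒱.Obj) (s j : ℕ) : Submodule W.K (W.H Z) :=
  Module.End.eigenspace (frob Φ Z s) ((card Φ Z s : W.K) ^ j) ⊓ W.gr Z (2 * j)

theorem mem_tateSub {s j : ℕ} {x : W.H Z} : x ∈ tateSub Φ Z s j ↔
    frob Φ Z s x = ((card Φ Z s : W.K) ^ j) • x ∧ x ∈ W.gr Z (2 * j) := by
  rw [tateSub, Submodule.mem_inf, Module.End.mem_eigenspace_iff]

theorem tateSub_mono (s r j : ℕ) : tateSub Φ Z s j ≤ tateSub Φ Z (s * r) j := by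
  intro x hx
  rw [mem_tateSub] at hx ⊢
  exact ⟨span_eig_mul Φ hx.1 r, hx.2⟩

/-- `dim H^{2j}` and the dimension of the space of the Tate classes over a quadratic extension have the same
parity, `j` the half of the dimension. -/
theorem parity {s j : ℕ} (hdim : Z.dim = 2 * j) :
    Even (finrank W.K (W.gr Z (2 * j)) - finrank W.K (tateSub Φ Z (s * 2) j)) := by
  set ν : W.K := (card Φ Z s : W.K) ^ Z.dim with hν
  have hν0 : ν ≠ 0 := pow_ne_zero _ (card_ne Φ s)
  have hFF : ∀ x y : W.H Z, W.tr Z (frob Φ Z s x * frob Φ Z s y) = ν * W.tr Z (x * y) := by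
    intro x y
    have h1 := tr_iter Φ s (x * y)
    rw [map_mul, ← card_pow] at h1
    exact h1
  let B0 : W.H Z →ₗ[W.K] W.H Z →ₗ[W.K] W.K := (LinearMap.mul W.K (W.H Z)).compr₂ (W.tr Z)
  let β0 : W.H Z →ₗ[W.K] W.H Z →ₗ[W.K] W.K := B0 ∘ₗ frob Φ Z s - B0.compl₂ (frob Φ Z s)
  let β : W.gr Z (2 * j) →ₗ[W.K] W.gr Z (2 * j) →ₗ[W.K] W.K := β0.domRestrict₁₂ _ _
  have hβ : ∀ x y : W.gr Z (2 * j), β x y =
      W.tr Z (frob Φ Z s (x : W.H Z) * (y : W.H Z)) - W.tr Z ((x : W.H Z) * frob Φ Z s (y : W.H Z)) :=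
    fun x y => rfl
  have halt : ∀ x, β x x = 0 := by
    intro x
    rw [hβ, W.even_comm x.2, sub_self]
  have h1 := alt_even β halt
  have h2 : (LinearMap.ker β).map (W.gr Z (2 * j)).subtype = tateSub Φ Z (s * 2) j := by
    have hcard : (card Φ Z (s * 2) : W.K) ^ j = ν := by
      rw [card_mul_eq, Nat.cast_pow, ← pow_mul, hν, hdim]
    have hFr : ∀ x, frob Φ Z (s * 2) x = frob Φ Z s (frob Φ Z s x) := by
      intro x
      rw [frob_mul_eq, pow_two, Module.End.mul_apply]
    ext x
    rw [mem_tateSub, hcard, hFr]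
    constructor
    · rintro ⟨⟨x, hx⟩, hk, rfl⟩
      refine ⟨?_, hx⟩
      change frob Φ Z s (frob Φ Z s x) = ν • x
      rw [← sub_eq_zero]
      have hzg : frob Φ Z s (frob Φ Z s x) - ν • x ∈ W.gr Z (2 * j) :=
        Submodule.sub_mem _ (W.map_mem _ (W.map_mem _ hx)) (Submodule.smul_mem _ _ hx)
      have hk' : ∀ y ∈ W.gr Z (2 * j), W.tr Z (frob Φ Z s x * y) = W.tr Z (x * frob Φ Z s y) := by
        intro y hy
        have h3 : β ⟨x, hx⟩ ⟨y, hy⟩ = 0 := by
          rw [SetLike.mem_coe, LinearMap.mem_ker] at hk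
          rw [hk, LinearMap.zero_apply]
        rw [hβ] at h3
        exact sub_eq_zero.1 h3
      apply W.nondeg
      intro b
      obtain ⟨b', hb'⟩ := frob_pow_surjective Φ s 1 b
      rw [pow_one] at hb'
      rw [← hb']
      refine gr_induction (W.isInternal Z) (p := fun b => W.tr Z
        ((frob Φ Z s (frob Φ Z s x) - ν • x) * frob Φ Z s b) = 0) ?_ ?_ b'
      · intro i b hb
        by_cases hi : i = 2 * j
        · subst hi
          rw [sub_mul, map_sub, hFF, hk' b hb, smul_mul_assoc, map_smul, smul_eq_mul, sub_self]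
        · exact W.tr_eq_zero (W.mul_mem hzg (W.map_mem _ hb)) (by omega)
      · intro a b ha hb
        rw [map_add, mul_add, map_add, ha, hb, add_zero]
    · rintro ⟨h3, hx⟩
      refine ⟨⟨x, hx⟩, ?_, rfl⟩
      rw [SetLike.mem_coe, LinearMap.mem_ker]
      apply LinearMap.ext
      rintro ⟨y, hy⟩
      rw [hβ, LinearMap.zero_apply]
      have h4 := hFF (frob Φ Z s x) y
      rw [h3, smul_mul_assoc, map_smul, smul_eq_mul] at h4
      have h5 := mul_left_cancel₀ hν0 h4
      rw [sub_eq_zero]
      exact h5.symm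
  rw [← h2, Submodule.finrank_map_subtype_eq]
  exact h1

/-- The dimension of the space of the Tate classes exceeds the one of the space of the classes of the cycles by at
most one, over all finite fields. -/
def TateDefectLEOne (Z : 𝒱.Obj) (j : ℕ) : Prop :=
  ∀ s, 0 < s → dimOf (tateSub Φ Z s j) ≤ dimOf (spanCycles W Z j) + 1

/-- The criterion. -/
theorem crit {j : ℕ} (hdim : Z.dim = 2 * j) : TateIn Φ Z j ↔
    dimOf (spanCycles W Z j) ≡ bettiNumber W Z (2 * j) [MOD 2] ∧ TateDefectLEOne Φ Z j := by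
  obtain ⟨t, ht, hspan⟩ := exists_span_eig Φ Z j
  have hle : spanCycles W Z j ≤ tateSub Φ Z t j := fun c hc =>
    (mem_tateSub Φ).2 ⟨hspan c hc, span_gr hc⟩
  have hpar : ∀ s, finrank W.K (tateSub Φ Z (s * 2) j) ≡ bettiNumber W Z (2 * j) [MOD 2] := by
    intro s
    have h1 := parity Φ (s := s) hdim
    have h2 : finrank W.K (tateSub Φ Z (s * 2) j) ≤ finrank W.K (W.gr Z (2 * j)) :=
      Submodule.finrank_mono inf_le_right
    rw [bettiNumber]
    exact (Nat.modEq_iff_dvd' h2).2 h1.two_dvd
  constructor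
  · intro h
    have hT : ∀ s, 0 < s → tateSub Φ Z s j ≤ spanCycles W Z j := by
      intro s hs c hc
      obtain ⟨h1, h2⟩ := (mem_tateSub Φ).1 hc
      refine h c ⟨h2, s, hs, ?_⟩
      rw [← card_pow]
      exact h1
    refine ⟨?_, fun s hs => (Submodule.finrank_mono (hT s hs)).trans (Nat.le_succ _)⟩
    have h3 : spanCycles W Z j = tateSub Φ Z (t * 2) j :=
      le_antisymm (hle.trans (tateSub_mono Φ t 2 j)) (hT _ (by omega))
    rw [dimOf, h3]
    exact hpar t
  · rintro ⟨h1, h2⟩ c ⟨hc1, s, hs, hc2⟩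
    rw [← card_pow] at hc2
    have hc : c ∈ tateSub Φ Z s j := (mem_tateSub Φ).2 ⟨hc2, hc1⟩
    have hc3 : c ∈ tateSub Φ Z (s * t * 2) j :=
      tateSub_mono Φ (s * t) 2 j (tateSub_mono Φ s t j hc)
    have hle2 : spanCycles W Z j ≤ tateSub Φ Z (s * t * 2) j := by
      refine hle.trans ((tateSub_mono Φ t s j).trans ?_)
      rw [mul_comm t s]
      exact tateSub_mono Φ (s * t) 2 j
    have h3 := h2 (s * t * 2) (by positivity)
    have h4 := hpar (s * t)
    have h5 := Submodule.finrank_mono hle2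
    rw [dimOf, dimOf] at h3
    rw [dimOf] at h1
    have h6 : finrank W.K (spanCycles W Z j) ≡ finrank W.K (tateSub Φ Z (s * t * 2) j) [MOD 2] :=
      h1.trans h4.symm
    have h7 : finrank W.K (tateSub Φ Z (s * t * 2) j) ≤ finrank W.K (spanCycles W Z j) := by
      unfold Nat.ModEq at h6
      omega
    rw [Submodule.eq_of_le_of_finrank_le hle2 h7]
    exact hc3

end Pool.Agent.V69.SS
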