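import Pool.Agent.V69.SS.Geo
import Pool.Agent.H914R2.GConv
import Pool.Agent.H914R2.GFrob

set_option autoImplicit false

/-!
# Semisimplicity of Frobenius and the cycles on the square
-/

open CategoryTheory AlgebraicGeometry

universe u v

namespace Pool.Agent.V69.SS

open Pool.Agent.H914 Pool.Agent.H447 VarClass Obj WeilCohomology Module
open Pool.Agent.W534

/-- An invertible endomorphism with a semisimple power is semisimple. -/
theorem ss_of_pow {K U : Type*} [Field K] [CharZero K] [AddCommGroup U] [Module K U]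
    [FiniteDimensional K U] (F : End K U) (hF : Function.Injective F) (t : ℕ) (ht : 0 < t)
    (h : (F ^ t).IsSemisimple) : F.IsSemisimple := by
  have hsq := h.minpoly_squarefree
  have hsep : (minpoly K (F ^ t)).Separable := PerfectField.separable_iff_squarefree.2 hsq
  have hroot : ¬ (minpoly K (F ^ t)).IsRoot 0 := by
    rw [← Module.End.hasEigenvalue_iff_isRoot]
    intro h0
    obtain ⟨x, hx, hx0⟩ := h0.exists_hasEigenvector
    rw [Module.End.mem_eigenspace_iff, zero_smul] at hx
    apply hx0
    have hinj : Function.Injective (F ^ t) := by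
      rw [Module.End.coe_pow]
      exact hF.iterate t
    apply hinj
    rw [hx, map_zero]
  have hcX : IsCoprime (Polynomial.expand K t (minpoly K (F ^ t))) Polynomial.X := by
    apply IsCoprime.symm
    rw [Polynomial.irreducible_X.coprime_iff_not_dvd, Polynomial.X_dvd_iff,
      Polynomial.coeff_zero_eq_eval_zero, Polynomial.expand_eval, zero_pow ht.ne']
    exact hroot
  have hsep' : (Polynomial.expand K t (minpoly K (F ^ t))).Separable := by
    unfold Polynomial.Separable
    rw [Polynomial.derivative_expand]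
    apply IsCoprime.mul_right
    · exact IsCoprime.map (show IsCoprime _ _ from hsep)
        (Polynomial.expand K t : Polynomial K →ₐ[K] Polynomial K).toRingHom
    · apply IsCoprime.mul_right
      · have : IsUnit ((t : Polynomial K)) := by
          rw [← Polynomial.C_eq_natCast, Polynomial.isUnit_C]
          exact isUnit_iff_ne_zero.2 (Nat.cast_ne_zero.2 ht.ne')
        obtain ⟨v, hv⟩ := this
        exact ⟨0, ↑v⁻¹, by rw [zero_mul, zero_add, ← hv, Units.inv_mul]⟩
      · exact hcX.pow_right
  apply Module.End.isSemisimple_of_squarefree_aeval_eq_zero hsep'.squarefree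
  rw [Polynomial.expand_aeval, minpoly.aeval]

variable {k : Type u} [Field k] {𝒱 : VarClass k} {ops : CycleOps 𝒱}
  {W : WeilCohomology.{u, v} ops} {X : 𝒱.Obj} {p : ℕ} (Φ : FrobSystem W p)

/-- An operator which preserves the degrees is given by a class of degree `2 dim X`. -/
theorem exists_deg_class {N : End W.K (W.H X)} (hN : ∀ i, ∀ a ∈ W.gr X i, N a ∈ W.gr X i) :
    ∃ c ∈ W.gr (X.prod X) (2 * X.dim), W.corr c = N := by
  obtain ⟨c, hc⟩ := (corr_bijective (W := W) (X := X)).2 N
  have hc' : W.corr c = N := hc
  have key : ∀ c : W.H (X.prod X), ∃ c0 ∈ W.gr (X.prod X) (2 * X.dim), ∀ i, ∀ a ∈ W.gr X i,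
      W.corr c0 a = proj (W.isInternal X) i (W.corr c a) := by
    intro c
    refine W.kunneth_induction (p := fun c => ∃ c0 ∈ W.gr (X.prod X) (2 * X.dim), ∀ i,
      ∀ a ∈ W.gr X i, W.corr c0 a = proj (W.isInternal X) i (W.corr c a)) ?_ ?_ c
    · rintro a b ⟨a0, ha0, ha⟩ ⟨b0, hb0, hb⟩
      refine ⟨a0 + b0, Submodule.add_mem _ ha0 hb0, fun i x hx => ?_⟩
      rw [corr_add, corr_add, LinearMap.add_apply, LinearMap.add_apply, map_add, ha i x hx,
        hb i x hx]
    · intro i j a ha b hb
      have hval : ∀ l, ∀ x ∈ W.gr X l, ∃ t : W.K,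
          W.corr (W.map (fst X X) a * W.map (snd X X) b) x = t • W.tr X (a * x) • b := by
        intro l x hx
        refine ⟨(-1 : W.K) ^ (j * l), ?_⟩
        rw [corr_apply, mul_assoc, W.comm (W.map_mem (snd X X) hb) (W.map_mem (fst X X) hx),
          mul_smul_comm, ← mul_assoc, ← map_mul, map_smul, push_snd]
      by_cases hij : i + j = 2 * X.dim
      · refine ⟨W.map (fst X X) a * W.map (snd X X) b, ?_, fun l x hx => ?_⟩
        · have := W.mul_mem (W.map_mem (fst X X) ha) (W.map_mem (snd X X) hb)
          rwa [hij] at this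
        · obtain ⟨t, ht⟩ := hval l x hx
          rw [ht]
          by_cases hil : i + l = 2 * X.dim
          · have : j = l := by omega
            subst this
            rw [proj_same]
            exact Submodule.smul_mem _ _ (Submodule.smul_mem _ _ hb)
          · rw [W.tr_eq_zero (W.mul_mem ha hx) hil, zero_smul, smul_zero, map_zero]
      · refine ⟨0, Submodule.zero_mem _, fun l x hx => ?_⟩
        rw [corr_zero, LinearMap.zero_apply]
        obtain ⟨t, ht⟩ := hval l x hx
        rw [ht]
        by_cases hil : i + l = 2 * X.dim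
        · rw [map_smul, map_smul, proj_ne (W.isInternal X) hb (by omega), smul_zero, smul_zero]
        · rw [W.tr_eq_zero (W.mul_mem ha hx) hil, zero_smul, smul_zero, map_zero]
  obtain ⟨c0, hc0, h⟩ := key c
  refine ⟨c0, hc0, ?_⟩
  apply gr_ext (W.isInternal X)
  intro i a ha
  rw [h i a ha, hc', proj_same (W.isInternal X) (hN i a ha)]

/-- Frobenius on the square. -/
theorem exists_square (X : 𝒱.Obj) : ∃ A B, 0 < A ∧ 0 < B ∧
    (∀ t, card Φ (X.prod X) (A * t) = card Φ X (B * t)) ∧
    ∀ t c, frob Φ (X.prod X) (A * t) c = W.map (squareMap (W534.iter (Φ.Fr X) (B * t))) c := by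
  obtain ⟨a1, b1, ha1, hb1, h1, h1'⟩ := frob_comm Φ (fst X X)
  obtain ⟨a2, b2, ha2, hb2, h2, h2'⟩ := frob_comm Φ (snd X X)
  have hB : b1 * a2 = b2 * a1 := by
    apply Nat.eq_of_mul_eq_mul_right (Φ.e_pos X)
    calc b1 * a2 * Φ.e X = a2 * (b1 * Φ.e X) := by ring
      _ = a1 * (a2 * Φ.e (X.prod X)) := by rw [← h1]; ring
      _ = b2 * a1 * Φ.e X := by rw [h2]; ring
  refine ⟨a1 * a2, b1 * a2, Nat.mul_pos ha1 ha2, Nat.mul_pos hb1 ha2, fun t => ?_, fun t c => ?_⟩
  · rw [card, card]
    congr 1
    calc Φ.e (X.prod X) * (a1 * a2 * t) = a1 * Φ.e (X.prod X) * (a2 * t) := by ring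
      _ = _ := by rw [h1]; ring
  · rw [frob_apply]
    refine W.kunneth_induction (p := fun c => W.map (W534.iter (Φ.Fr (X.prod X)) (a1 * a2 * t)) c =
      W.map (squareMap (W534.iter (Φ.Fr X) (b1 * a2 * t))) c) ?_ ?_ c
    · intro a b ha hb
      rw [map_add, map_add, ha, hb]
    · intro i j a _ b _
      rw [map_squareMap, map_mul]
      congr 1
      · rw [mul_assoc a1, mul_assoc b1, h1']
      · rw [show a1 * a2 * t = a2 * (a1 * t) by ring, hB, mul_assoc b2, h2']

/-- If Frobenius on the middle cohomology of the square is semisimple for the eigenvalue `q ^ n`, then Frobenius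
is semisimple. -/
theorem ss_of_square (h : JordanLE Φ (X.prod X) X.dim 1) {s : ℕ} (hs : 0 < s) :
    (frob Φ X s).IsSemisimple := by
  obtain ⟨A, B, hA, hB, hcard, hFr⟩ := exists_square Φ X
  have hinj : Function.Injective (frob Φ X s) := by
    have := frob_pow_injective Φ (Z := X) s 1
    rwa [pow_one] at this
  refine ss_of_pow _ hinj B hB ?_
  rw [← frob_mul_eq, mul_comm s B]
  set φ := W534.iter (Φ.Fr X) (B * s) with hφ
  set G := frob Φ X (B * s) with hG
  have hGφ : ∀ a, G a = W.map φ a := fun a => rfl
  have hGsurj : Function.Surjective G := by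
    have := frob_pow_surjective Φ (Z := X) (B * s) 1
    rwa [pow_one] at this
  set δ : W.K := (card Φ X (B * s) : W.K) ^ X.dim with hδd
  have hδ0 : δ ≠ 0 := pow_ne_zero _ (card_ne Φ _)
  have hδ : ∀ a, W.tr X (W.map φ a) = δ * W.tr X a := by
    intro a
    have := tr_iter Φ (B * s) a
    rwa [← card_pow] at this
  have hFx : ∀ c, frob Φ (X.prod X) (A * s) c = W.map (squareMap φ) c := hFr s
  have hμ : (card Φ (X.prod X) (A * s) : W.K) ^ X.dim = δ := by rw [hcard]
  -- the eigenvectors and the operators which commute with `G`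
  have h1 : ∀ e : W.H (X.prod X), W.map (squareMap φ) e = δ • e → Commute (W.corr e) G := by
    intro e he
    apply LinearMap.ext
    intro a
    have h2 := corr_squareMap hδ e a
    rw [he, corr_smul, LinearMap.smul_apply] at h2
    rw [Module.End.mul_apply, Module.End.mul_apply, hGφ, hGφ]
    exact smul_right_injective _ hδ0 h2
  have h2 : ∀ e : W.H (X.prod X), Commute (W.corr e) G → W.map (squareMap φ) e = δ • e := by
    intro e he
    rw [← sub_eq_zero]
    apply corr_inj
    apply LinearMap.ext
    intro b
    obtain ⟨a, rfl⟩ := hGsurj b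
    have h3 := corr_squareMap hδ e a
    have h4 : W.corr e (G a) = G (W.corr e a) := congrArg (fun T => T a) he.eq
    have h5 : W.corr (W.map (squareMap φ) e - δ • e) =
        W.corr (W.map (squareMap φ) e) - δ • W.corr e := by
      rw [← corr_smul]
      exact map_sub (corrEquiv W X) (W.map (squareMap φ) e) (δ • e)
    rw [h5, LinearMap.sub_apply, LinearMap.smul_apply, h4, LinearMap.zero_apply]
    rw [hGφ, h3, ← hGφ, sub_self]
  have hsw : ∀ e : W.H (X.prod X), W.map (squareMap φ) (W.map (swap X X) e) =
      W.map (swap X X) (W.map (squareMap φ) e) := by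
    intro e
    refine W.kunneth_induction (p := fun e => W.map (squareMap φ) (W.map (swap X X) e) =
      W.map (swap X X) (W.map (squareMap φ) e)) ?_ ?_ e
    · intro a b ha hb
      rw [map_add, map_add, ha, hb, map_add, map_add]
    · intro i j a _ b _
      have e1 : squareMap φ ≫ fst X X = fst X X ≫ φ := Obj.lift_fst _ _
      have e2 : squareMap φ ≫ snd X X = snd X X ≫ φ := Obj.lift_snd _ _
      have e3 : ∀ y, W.map (swap X X) (W.map (fst X X) y) = W.map (snd X X) y := fun y => by
        rw [← W.map_comp, swap_fst]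
      have e4 : ∀ y, W.map (swap X X) (W.map (snd X X) y) = W.map (fst X X) y := fun y => by
        rw [← W.map_comp, swap_snd]
      have e5 : ∀ y, W.map (squareMap φ) (W.map (fst X X) y) = W.map (fst X X) (W.map φ y) :=
        fun y => by rw [← W.map_comp, ← W.map_comp, e1]
      have e6 : ∀ y, W.map (squareMap φ) (W.map (snd X X) y) = W.map (snd X X) (W.map φ y) :=
        fun y => by rw [← W.map_comp, ← W.map_comp, e2]
      rw [map_squareMap, map_mul (W.map (swap X X)), map_mul (W.map (swap X X)), e3, e4, e3, e4,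
        map_mul (W.map (squareMap φ)), e5, e6]
  obtain ⟨N, hNadj, S, hSadj, hNnil, hSss, hGNS⟩ :=
    Module.End.exists_isNilpotent_isSemisimple (K := W.K) (f := G)
  have hGdeg : ∀ i, ∀ a ∈ W.gr X i, G a ∈ W.gr X i := fun i a ha => W.map_mem _ ha
  have hadj : ∀ T ∈ Algebra.adjoin W.K {G}, ∀ i, ∀ a ∈ W.gr X i, T a ∈ W.gr X i := by
    intro T hT
    induction hT using Algebra.adjoin_induction with
    | mem x hx =>
      rw [Set.mem_singleton_iff] at hx
      rw [hx]
      exact hGdeg
    | algebraMap r =>
      intro i a ha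
      rw [Module.algebraMap_end_apply]
      exact Submodule.smul_mem _ _ ha
    | add x y _ _ hx hy =>
      intro i a ha
      exact Submodule.add_mem _ (hx i a ha) (hy i a ha)
    | mul x y _ _ hx hy =>
      intro i a ha
      exact hx i _ (hy i a ha)
  have hNdeg := hadj N hNadj
  obtain ⟨c, hcgr, hcN⟩ := exists_deg_class hNdeg
  have hcomm : ∀ T : End W.K (W.H X), Commute T G → Commute T N := fun T hT =>
    Algebra.commute_of_mem_adjoin_singleton_of_commute hNadj hT
  have hNG : Commute N G := (hcomm G (Commute.refl _)).symm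
  have hceig : frob Φ (X.prod X) (A * s) c =
      ((card Φ (X.prod X) (A * s) : W.K) ^ X.dim) • c := by
    rw [hFx, hμ]
    apply h2
    rw [hcN]
    exact hNG
  have hcT : c ∈ genTate Φ (X.prod X) (A * s) X.dim := mem_genTate_of_eig Φ hcgr hceig
  have hparN : Commute (par (W.isInternal X)) N := by
    apply gr_ext (W.isInternal X)
    intro i a ha
    rw [Module.End.mul_apply, Module.End.mul_apply, par, scal_apply _ _ ha,
      scal_apply _ _ (hNdeg i a ha), map_smul]
  have hc0 : c = 0 := by
    apply genTate_nondeg Φ (l := X.dim) (by rw [dim_prod]) hcT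
    intro e he
    have he1 := h (A * s) (Nat.mul_pos hA hs) e he
    rw [pow_one, LinearMap.sub_apply, LinearMap.smul_apply, Module.End.one_apply, hμ, hFx,
      sub_eq_zero] at he1
    have hE : Commute (W.corr (W.map (swap X X) e)) N := by
      apply hcomm
      apply h1
      rw [hsw, he1, map_smul]
    rw [tr_mul_eq_trace hcgr, hcN, hparN.eq, mul_assoc]
    have hnil : IsNilpotent (N * (par (W.isInternal X) * W.corr (W.map (swap X X) e))) :=
      (hparN.symm.mul_right hE.symm).isNilpotent_mul_right hNnil
    exact (LinearMap.isNilpotent_trace_of_isNilpotent hnil).eq_zero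
  have hN0 : N = 0 := by rw [← hcN, hc0, corr_zero]
  rw [hGNS, hN0, zero_add]
  exact hSss

/-- Frobenius acts semisimply on the whole cohomology of `X`, over all finite fields over which the model of `X`
is defined. -/
def FrobSemisimple (X : 𝒱.Obj) : Prop := ∀ s, 0 < s → (frob Φ X s).IsSemisimple

/-- The criterion on the square. -/
theorem ss_of_defect (h : DefectLE Φ (X.prod X) X.dim 2) : FrobSemisimple Φ X := fun _ hs =>
  ss_of_square Φ (jordan (m := 1) Φ (by rw [dim_prod]; ring) odd_one h) hs

end Pool.Agent.V69.SS
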